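import Pool.Agent.Q276.BA.Stm4
import Pool.Agent.Q190.BA.Ker

/-!
# Project BA (helper276), job J: the second moment of the kernels
-/

set_option autoImplicit false

open MeasureTheory Set Filter Topology
open scoped BigOperators ENNReal

namespace Pool.Agent.Q129.BA

open Pool.Agent.Q276.BA
open Pool.Agent.Q190.BA (moment rat sumc a3' a4' pp_continuous)

theorem int_sq (b N : ℕ) : ∫ v in (0 : ℝ)..1, v ^ 2 * (qq b N v) ^ 2 =
    ∑ i ∈ Finset.range N, cc b N i *
      (∑ l ∈ Finset.range N, cc b N l / ((b : ℝ) + ((i + 2 : ℕ) : ℝ) + l + 1)) := by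
  have hp := pp_continuous b N
  have e : ∀ v ∈ Set.uIcc (0 : ℝ) 1, v ^ 2 * (qq b N v) ^ 2 =
      ∑ i ∈ Finset.range N, cc b N i * (v ^ (b + (i + 2)) * pp b N v) := by
    intro v hv
    rw [Set.uIcc_of_le zero_le_one] at hv
    have h1 : Real.sqrt v ^ b * Real.sqrt v ^ b = v ^ b := by
      rw [← mul_pow, Real.mul_self_sqrt hv.1]
    have h2 : (qq b N v) ^ 2 = v ^ b * pp b N v * pp b N v := by
      unfold qq
      rw [← h1]
      ring
    have h4 : v ^ 2 * (v ^ b * pp b N v * pp b N v) = (v ^ (b + 2) * pp b N v) * pp b N v := by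
      rw [pow_add]
      ring
    have h5 : pp b N v = ∑ i ∈ Finset.range N, cc b N i * v ^ i := rfl
    rw [h2, h4]
    calc (v ^ (b + 2) * pp b N v) * pp b N v =
        (v ^ (b + 2) * pp b N v) * ∑ i ∈ Finset.range N, cc b N i * v ^ i := by rw [← h5]
      _ = _ := by
        rw [Finset.mul_sum]
        refine Finset.sum_congr rfl fun i _ => ?_
        rw [show b + (i + 2) = b + 2 + i by omega, pow_add v (b + 2) i]
        ring
  rw [intervalIntegral.integral_congr e,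
    intervalIntegral.integral_finsetSum fun l _ => (Continuous.intervalIntegrable (by fun_prop) _ _)]
  refine Finset.sum_congr rfl fun i _ => ?_
  rw [intervalIntegral.integral_const_mul, moment]

/-- the rational function at the naturals -/
theorem mom_rat (b N x : ℕ) : ∑ l ∈ Finset.range N, cc b N l / ((b : ℝ) + (x : ℝ) + l + 1) =
    (∏ s ∈ Finset.range N, ((x : ℝ) - s)) / (∏ l ∈ Finset.range N, ((x : ℝ) + b + l + 1)) - 1 := by
  have h := rat b N (x : ℝ) (fun l _ => by positivity)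
  have e : ∀ l ∈ Finset.range N, cc b N l / ((b : ℝ) + x + l + 1) = cc b N l / ((x : ℝ) + b + l + 1) := by
    intro l _
    rw [add_comm (b : ℝ) x]
  rw [Finset.sum_congr rfl e, ← h]
  ring

theorem num_zero (N x : ℕ) (hx : x < N) : ∏ s ∈ Finset.range N, ((x : ℝ) - s) = 0 :=
  Finset.prod_eq_zero (Finset.mem_range.2 hx) (sub_self _)

theorem num_N (N : ℕ) : ∏ s ∈ Finset.range N, ((N : ℝ) - s) = (N.factorial : ℝ) := by
  rw [← Finset.prod_range_reflect, ← Finset.prod_range_add_one_eq_factorial, Nat.cast_prod]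
  refine Finset.prod_congr rfl fun j hj => ?_
  have hj' := Finset.mem_range.1 hj
  have : ((N - 1 - j : ℕ) : ℝ) = (N : ℝ) - ((j + 1 : ℕ) : ℝ) := by
    rw [← Nat.cast_sub (by omega)]
    congr 1
    omega
  rw [this]
  ring

theorem num_N1 (N : ℕ) : ∏ s ∈ Finset.range N, (((N + 1 : ℕ) : ℝ) - s) = ((N + 1) * N.factorial : ℝ) := by
  have h := num_N (N + 1)
  rw [Finset.prod_range_succ, Nat.factorial_succ] at h
  push_cast at h ⊢
  linarith

/-- shifting a product -/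
theorem shift (x : ℝ) (N : ℕ) : (∏ l ∈ Finset.range N, (x + l + 1)) * x =
    (∏ l ∈ Finset.range N, (x + l)) * (x + N) := by
  have h1 := Finset.prod_range_succ (fun l : ℕ => x + (l : ℝ)) N
  have h2 := Finset.prod_range_succ' (fun l : ℕ => x + (l : ℝ)) N
  rw [h1] at h2
  push_cast at h2
  have h3 : ∀ l ∈ Finset.range N, (x + ((l : ℝ) + 1)) = x + l + 1 := fun l _ => by ring
  rw [Finset.prod_congr rfl h3, add_zero] at h2
  exact h2.symm

theorem asc (n N : ℕ) : ((n + N).choose N : ℝ) * (N.factorial : ℝ) =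
    ∏ l ∈ Finset.range N, ((n : ℝ) + 1 + l) := by
  have h := Nat.ascFactorial_eq_factorial_mul_choose n N
  rw [Nat.ascFactorial_eq_prod_range] at h
  have h' := congrArg (fun z : ℕ => (z : ℝ)) h
  push_cast at h'
  rw [mul_comm, ← h']

/-- the last coefficient -/
theorem cc_last (b m : ℕ) : cc b (m + 1) m = -(((m : ℝ) + 1) * ((m + b + (m + 1)).choose (m + 1) : ℝ)) := by
  unfold cc
  rw [Nat.add_sub_cancel, Nat.choose_self]
  rw [show m + 1 + m = 2 * m + 1 by omega, pow_succ, pow_mul, show m + 1 + b + m = m + b + (m + 1) by omega]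
  push_cast
  norm_num
  ring

/-- the last coefficient but one -/
theorem cc_last2 (b k : ℕ) : cc b (k + 2) k =
    ((k : ℝ) + 2) * ((k : ℝ) + 1) * ((k + b + (k + 2)).choose (k + 2) : ℝ) := by
  unfold cc
  rw [show k + 2 - 1 = k + 1 by omega, Nat.choose_succ_self_right]
  rw [show k + 2 + k = 2 * (k + 1) by omega, pow_mul, show k + 2 + b + k = k + b + (k + 2) by omega]
  push_cast
  norm_num

/-- the contribution of the last coefficient -/
theorem last_term (b m : ℕ) : cc b (m + 1) m * ((∏ s ∈ Finset.range (m + 1), (((m + 1 + 1 : ℕ) : ℝ) - s)) /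
    (∏ l ∈ Finset.range (m + 1), (((m + 1 + 1 : ℕ) : ℝ) + b + l + 1))) =
    -(((m : ℝ) + 1) * (m + 2) * (m + 1 + b) * (m + 2 + b)) / ((2 * (m + 1) + b) * (2 * (m + 1) + b + 1)) := by
  rw [cc_last, num_N1]
  have h0 := asc (m + b) (m + 1)
  have h1 := shift ((m : ℝ) + 1 + b) (m + 1)
  have h2 := shift ((m : ℝ) + 1 + b + 1) (m + 1)
  have e0 : ∏ l ∈ Finset.range (m + 1), ((((m + b : ℕ) : ℕ) : ℝ) + 1 + l) =
      ∏ l ∈ Finset.range (m + 1), ((m : ℝ) + 1 + b + l) :=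
    Finset.prod_congr rfl fun l _ => by push_cast; ring
  have e1 : ∏ l ∈ Finset.range (m + 1), ((m : ℝ) + 1 + b + l + 1) =
      ∏ l ∈ Finset.range (m + 1), ((m : ℝ) + 1 + b + 1 + l) :=
    Finset.prod_congr rfl fun l _ => by ring
  have e2 : ∏ l ∈ Finset.range (m + 1), ((m : ℝ) + 1 + b + 1 + l + 1) =
      ∏ l ∈ Finset.range (m + 1), (((m + 1 + 1 : ℕ) : ℝ) + b + l + 1) :=
    Finset.prod_congr rfl fun l _ => by push_cast; ring
  rw [e0] at h0
  rw [e1] at h1
  rw [e2] at h2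
  have p0 : 0 < ∏ l ∈ Finset.range (m + 1), ((m : ℝ) + 1 + b + l) := Finset.prod_pos fun l _ => by positivity
  have p1 : 0 < ∏ l ∈ Finset.range (m + 1), ((m : ℝ) + 1 + b + 1 + l) := Finset.prod_pos fun l _ => by positivity
  have p2 : 0 < ∏ l ∈ Finset.range (m + 1), (((m + 1 + 1 : ℕ) : ℝ) + b + l + 1) :=
    Finset.prod_pos fun l _ => by positivity
  set P0 := ∏ l ∈ Finset.range (m + 1), ((m : ℝ) + 1 + b + l)
  set P1 := ∏ l ∈ Finset.range (m + 1), ((m : ℝ) + 1 + b + 1 + l)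
  set P2 := ∏ l ∈ Finset.range (m + 1), (((m + 1 + 1 : ℕ) : ℝ) + b + l + 1)
  set C := ((m + b + (m + 1)).choose (m + 1) : ℝ)
  set W := ((m + 1).factorial : ℝ)
  push_cast at h1 h2 ⊢
  have d1 : (0 : ℝ) < 2 * (m + 1) + b := by positivity
  have d2 : (0 : ℝ) < 2 * (m + 1) + b + 1 := by positivity
  rw [mul_div_assoc', div_eq_div_iff p2.ne' (mul_pos d1 d2).ne']
  -- P2 (m+2+b) (m+1+b) = P0 d1 d2
  have h3 : P2 * (m + 2 + b) * (m + 1 + b) = P0 * (2 * (m + 1) + b) * (2 * (m + 1) + b + 1) := by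
    linear_combination ((m : ℝ) + 1 + b) * h2 + (2 * (m : ℝ) + 3 + b) * h1
  linear_combination (-((m : ℝ) + 1) * (m + 2) * (2 * (m + 1) + b) * (2 * (m + 1) + b + 1)) * h0 +
    ((m : ℝ) + 1) * (m + 2) * h3

/-- the contribution of the last coefficient but one -/
theorem last_term2 (b k : ℕ) : cc b (k + 2) k * ((∏ s ∈ Finset.range (k + 2), (((k + 2 : ℕ) : ℝ) - s)) /
    (∏ l ∈ Finset.range (k + 2), (((k + 2 : ℕ) : ℝ) + b + l + 1))) =
    (((k : ℝ) + 2) * (k + 1) * (k + 2 + b) * (k + 1 + b)) / ((2 * (k + 2) + b) * (2 * (k + 2) + b - 1)) := by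
  rw [cc_last2, num_N]
  have h0 := asc (k + b) (k + 2)
  have h1 := shift ((k : ℝ) + 1 + b) (k + 2)
  have h2 := shift ((k : ℝ) + 1 + b + 1) (k + 2)
  have e0 : ∏ l ∈ Finset.range (k + 2), ((((k + b : ℕ) : ℕ) : ℝ) + 1 + l) =
      ∏ l ∈ Finset.range (k + 2), ((k : ℝ) + 1 + b + l) :=
    Finset.prod_congr rfl fun l _ => by push_cast; ring
  have e1 : ∏ l ∈ Finset.range (k + 2), ((k : ℝ) + 1 + b + l + 1) =
      ∏ l ∈ Finset.range (k + 2), ((k : ℝ) + 1 + b + 1 + l) :=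
    Finset.prod_congr rfl fun l _ => by ring
  have e2 : ∏ l ∈ Finset.range (k + 2), ((k : ℝ) + 1 + b + 1 + l + 1) =
      ∏ l ∈ Finset.range (k + 2), (((k + 2 : ℕ) : ℝ) + b + l + 1) :=
    Finset.prod_congr rfl fun l _ => by push_cast; ring
  rw [e0] at h0
  rw [e1] at h1
  rw [e2] at h2
  have p0 : 0 < ∏ l ∈ Finset.range (k + 2), ((k : ℝ) + 1 + b + l) := Finset.prod_pos fun l _ => by positivity
  have p2 : 0 < ∏ l ∈ Finset.range (k + 2), (((k + 2 : ℕ) : ℝ) + b + l + 1) :=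
    Finset.prod_pos fun l _ => by positivity
  set P0 := ∏ l ∈ Finset.range (k + 2), ((k : ℝ) + 1 + b + l)
  set P1 := ∏ l ∈ Finset.range (k + 2), ((k : ℝ) + 1 + b + 1 + l)
  set P2 := ∏ l ∈ Finset.range (k + 2), (((k + 2 : ℕ) : ℝ) + b + l + 1)
  set C := ((k + b + (k + 2)).choose (k + 2) : ℝ)
  set W := ((k + 2).factorial : ℝ)
  push_cast at h1 h2 ⊢
  have d1 : (0 : ℝ) < 2 * (k + 2) + b := by positivity
  have d2 : (0 : ℝ) < 2 * (k + 2) + b - 1 := by
    have : (0 : ℝ) ≤ k := Nat.cast_nonneg k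
    have : (0 : ℝ) ≤ b := Nat.cast_nonneg b
    linarith
  rw [mul_div_assoc', div_eq_div_iff p2.ne' (mul_pos d1 d2).ne']
  have h3 : P2 * (k + 2 + b) * (k + 1 + b) = P0 * (2 * (k + 2) + b) * (2 * (k + 2) + b - 1) := by
    linear_combination ((k : ℝ) + 1 + b) * h2 + (2 * (k : ℝ) + 4 + b) * h1
  linear_combination (((k : ℝ) + 2) * (k + 1) * (2 * (k + 2) + b) * (2 * (k + 2) + b - 1)) * h0 -
    ((k : ℝ) + 2) * (k + 1) * h3

/-- the second moment -/
theorem int_sq_eq (b m : ℕ) : ∫ v in (0 : ℝ)..1, v ^ 2 * (qq b (m + 1) v) ^ 2 =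
    ((m : ℝ) + 1) * (m + 1 + b) + ((m : ℝ) + 1) * m * (m + 1 + b) * (m + b) /
      ((2 * (m + 1) + b) * (2 * (m + 1) + b - 1)) -
    ((m : ℝ) + 1) * (m + 2) * (m + 1 + b) * (m + 2 + b) / ((2 * (m + 1) + b) * (2 * (m + 1) + b + 1)) := by
  rw [int_sq]
  have e0 : ∀ i ∈ Finset.range (m + 1), cc b (m + 1) i *
      (∑ l ∈ Finset.range (m + 1), cc b (m + 1) l / ((b : ℝ) + ((i + 2 : ℕ) : ℝ) + l + 1)) =
      cc b (m + 1) i * ((∏ s ∈ Finset.range (m + 1), (((i + 2 : ℕ) : ℝ) - s)) /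
        (∏ l ∈ Finset.range (m + 1), (((i + 2 : ℕ) : ℝ) + b + l + 1))) - cc b (m + 1) i := by
    intro i _
    rw [mom_rat]
    ring
  rw [Finset.sum_congr rfl e0, Finset.sum_sub_distrib, sumc, Finset.sum_range_succ]
  have h1 := last_term b m
  rw [show m + 1 + 1 = m + 2 by omega] at h1
  rw [h1]
  have h2 : ∑ i ∈ Finset.range m, cc b (m + 1) i * ((∏ s ∈ Finset.range (m + 1), (((i + 2 : ℕ) : ℝ) - s)) /
        (∏ l ∈ Finset.range (m + 1), (((i + 2 : ℕ) : ℝ) + b + l + 1))) =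
      ((m : ℝ) + 1) * m * (m + 1 + b) * (m + b) / ((2 * (m + 1) + b) * (2 * (m + 1) + b - 1)) := by
    rcases m with _ | k
    · simp
    · rw [Finset.sum_range_succ]
      have h3 : ∀ i ∈ Finset.range k, cc b (k + 1 + 1) i *
          ((∏ s ∈ Finset.range (k + 1 + 1), (((i + 2 : ℕ) : ℝ) - s)) /
            (∏ l ∈ Finset.range (k + 1 + 1), (((i + 2 : ℕ) : ℝ) + b + l + 1))) = 0 := by
        intro i hi
        rw [num_zero (k + 1 + 1) (i + 2) (by have := Finset.mem_range.1 hi; omega)]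
        simp
      rw [Finset.sum_eq_zero h3, zero_add, show k + 1 + 1 = k + 2 by omega, last_term2]
      push_cast
      congr 1 <;> ring
  rw [h2]
  push_cast
  ring

/-- **J** -/
theorem j : S_J := by
  intro b N hN
  obtain ⟨m, rfl⟩ : ∃ m, N = m + 1 := ⟨N - 1, by omega⟩
  have hq : Continuous (qq b (m + 1)) := by
    unfold qq
    have := pp_continuous b (m + 1)
    fun_prop
  have e : ∀ v ∈ Set.uIcc (0 : ℝ) 1, (1 - v) ^ 2 * (qq b (m + 1) v) ^ 2 =
      (2 * ((1 - v) * (qq b (m + 1) v) ^ 2) - (qq b (m + 1) v) ^ 2) + v ^ 2 * (qq b (m + 1) v) ^ 2 :=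
    fun v _ => by ring
  have i1 : IntervalIntegrable (fun v => 2 * ((1 - v) * (qq b (m + 1) v) ^ 2)) volume 0 1 :=
    Continuous.intervalIntegrable (by fun_prop) _ _
  have i2 : IntervalIntegrable (fun v => (qq b (m + 1) v) ^ 2) volume 0 1 :=
    Continuous.intervalIntegrable (by fun_prop) _ _
  have i3 : IntervalIntegrable (fun v => v ^ 2 * (qq b (m + 1) v) ^ 2) volume 0 1 :=
    Continuous.intervalIntegrable (by fun_prop) _ _
  rw [intervalIntegral.integral_congr e, intervalIntegral.integral_add (i1.sub i2) i3,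
    intervalIntegral.integral_sub i1 i2, intervalIntegral.integral_const_mul, a4' b (m + 1),
    a3' b (m + 1), int_sq_eq]
  have d1 : (0 : ℝ) < 2 * (m + 1) + b := by positivity
  have d2 : (0 : ℝ) < 2 * (m + 1) + b + 1 := by positivity
  have d3 : (0 : ℝ) < 2 * (m + 1) + b - 1 := by
    have : (0 : ℝ) ≤ m := Nat.cast_nonneg m
    have : (0 : ℝ) ≤ b := Nat.cast_nonneg b
    linarith
  have d4 : ((2 * ((m : ℝ) + 1) + b) ^ 2 - 1) = (2 * (m + 1) + b - 1) * (2 * (m + 1) + b + 1) := by ring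
  push_cast
  rw [d4]
  field_simp
  ring

end Pool.Agent.Q129.BA
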